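import Pool.Agent.helper24.TG.S2

set_option linter.all false
set_option autoImplicit false

/-!
# Module PP4 (MP_ce98d8_co): property P4 of one labelling
-/

namespace Pool.Agent.helper24.TG

open Finset Classical
open Pool.Agent.helper11.Tight (nb eo mem_nb)

section PP4aux

variable (p : Par)

theorem PP4_c_ge : 10 ^ 6 ≤ p.c := by
  have h1 := p.hLog
  have h2 := p.hLam
  nlinarith

theorem PP4_q_ge : p.c ^ (p.kT + 12) ≤ p.q := by
  have h1 := p.N4
  have h2 := p.hLa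
  exact le_trans (Nat.le_mul_of_pos_left _ h2) h1

theorem PP4_q_pos : 0 < p.q :=
  lt_of_lt_of_le (pow_pos (lt_of_lt_of_le (by norm_num) (PP4_c_ge p)) _) (PP4_q_ge p)

theorem PP4_C_pos : 0 < p.C := by
  rcases Nat.eq_zero_or_pos p.C with h | h
  · have h1 := p.hC1
    rw [h] at h1
    have h3 : 0 < p.c ^ 3 * p.q * p.d :=
      Nat.mul_pos (Nat.mul_pos (pow_pos (lt_of_lt_of_le (by norm_num) (PP4_c_ge p)) _)
        (PP4_q_pos p)) (lt_of_lt_of_le (by norm_num) p.hd)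
    omega
  · exact h

theorem PP4_rc : (10 : ℝ) ^ 6 ≤ p.c := by exact_mod_cast PP4_c_ge p

theorem PP4_B_pos : 0 < p.B :=
  lt_of_lt_of_le (pow_pos (lt_of_lt_of_le (by norm_num) (PP4_c_ge p)) _) p.N7

theorem PP4_rho_ge : (p.c : ℝ) ^ 100 ≤ p.rho := by
  have h : ((p.c : ℝ) * p.B) ^ 100 * p.L * (p.K + 1) * p.N ≤ p.q * p.d := by exact_mod_cast p.N2
  have hL : (1 : ℝ) ≤ p.L := by exact_mod_cast p.hL
  have hN : (1 : ℝ) ≤ p.N := by exact_mod_cast p.hN
  have hK : (0 : ℝ) ≤ p.K := Nat.cast_nonneg _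
  have hB : (1 : ℝ) ≤ p.B := by exact_mod_cast PP4_B_pos p
  have hc : (0 : ℝ) < p.c := lt_of_lt_of_le (by norm_num) (PP4_rc p)
  unfold Par.rho
  rw [le_div_iff₀ (by linarith)]
  refine le_trans ?_ h
  have h1 : (p.c : ℝ) ^ 100 ≤ ((p.c : ℝ) * p.B) ^ 100 := by
    apply pow_le_pow_left₀ hc.le
    nlinarith
  have h2 : ((p.c : ℝ) * p.B) ^ 100 ≤ ((p.c : ℝ) * p.B) ^ 100 * p.L * (p.K + 1) := by
    have h0 : (0 : ℝ) ≤ ((p.c : ℝ) * p.B) ^ 100 := by positivity
    have h3 : (1 : ℝ) ≤ p.L * (p.K + 1) := by nlinarith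
    calc ((p.c : ℝ) * p.B) ^ 100 = ((p.c : ℝ) * p.B) ^ 100 * 1 := (mul_one _).symm
      _ ≤ ((p.c : ℝ) * p.B) ^ 100 * (p.L * (p.K + 1)) := mul_le_mul_of_nonneg_left h3 h0
      _ = _ := by ring
  exact mul_le_mul_of_nonneg_right (h1.trans h2) (by linarith)

theorem PP4_exp_ge (y : ℝ) (n : ℕ) (h : (n : ℝ) ≤ y) : (2 : ℝ) ^ n ≤ Real.exp y := by
  have h1 : (2 : ℝ) ≤ Real.exp 1 := by
    have := Real.add_one_le_exp (1 : ℝ)
    linarith
  calc (2 : ℝ) ^ n ≤ (Real.exp 1) ^ n := pow_le_pow_left₀ (by norm_num) h1 n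
    _ = Real.exp n := by rw [← Real.exp_nat_mul]; simp
    _ ≤ Real.exp y := Real.exp_le_exp.2 h

theorem PP4_card_PA_le {P O A : Type} [Fintype P] [DecidableEq P] [Fintype O]
    [DecidableEq O] [Fintype A] [DecidableEq A] [AddCommGroup A] (H : Host P O p.q)
    (hA : Fintype.card A = p.B) : Fintype.card (P × A) ≤ 2 ^ p.Lam := by
  rw [Fintype.card_prod, H.card_P, hA]
  have hq := PP4_q_pos p
  have hC := PP4_C_pos p
  have hs := p.s1
  have h1 : p.q ^ 2 + p.q + 1 ≤ 4 * p.q ^ 2 := by nlinarith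
  calc (p.q ^ 2 + p.q + 1) * p.B ≤ 4 * p.q ^ 2 * p.B := Nat.mul_le_mul_right _ h1
    _ ≤ 4 * p.q ^ 2 * p.B * p.C := Nat.le_mul_of_pos_right _ hC
    _ = 4 * p.B * p.q ^ 2 * p.C := by ring
    _ ≤ _ := hs

end PP4aux

theorem PP4 (h : LB3_stmt) : PP4_stmt := by
  intro p P O A V _ _ _ _ _ _ _ _ _ H v T MM v0 hA hT hH3
  have hc := PP4_rc p
  have hc0 : (0 : ℝ) < p.c := lt_of_lt_of_le (by norm_num) hc
  have hrho := PP4_rho_ge p
  have hrho0 : (0 : ℝ) < p.rho := lt_of_lt_of_le (by positivity) hrho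
  set I : Finset ((P × A) × (P × A) × Finset V) :=
    (Finset.univ ×ˢ (Finset.univ ×ˢ MM)).filter (fun e => ¬ onL H v e.1 e.2.1) with hI
  have hIc : I.card ≤ 2 ^ (3 * p.Lam) := by
    have h1 := PP4_card_PA_le p H hA
    have h2 : MM.card ≤ 2 ^ p.Lam := hT.card_MM.trans p.s4
    calc I.card ≤ ((Finset.univ : Finset (P × A)) ×ˢ
          ((Finset.univ : Finset (P × A)) ×ˢ MM)).card := Finset.card_filter_le _ _
      _ = Fintype.card (P × A) * (Fintype.card (P × A) * MM.card) := by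
          rw [Finset.card_product, Finset.card_product, Finset.card_univ]
      _ ≤ 2 ^ p.Lam * (2 ^ p.Lam * 2 ^ p.Lam) :=
          Nat.mul_le_mul h1 (Nat.mul_le_mul h1 h2)
      _ = 2 ^ (3 * p.Lam) := by rw [← pow_add, ← pow_add]; congr 1; ring
  have key : ∀ e ∈ I, ((Psi p H v0).filter (fun φ => p.rho / p.c <
      ((lin H v e.1 ∩ Gam H v e.2.1 ∩ XA A H ∩ labS A φ e.2.2).card : ℝ))).card *
      2 ^ (3 * p.Lam + 8 * p.Lam) ≤ (Psi p H v0).card := by
    rintro ⟨L, z, M⟩ he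
    simp only [hI, Finset.mem_filter, Finset.mem_product, Finset.mem_univ, true_and] at he
    obtain ⟨hM, hn⟩ := he
    set J : Finset P := (lin H v L ∩ Gam H v z ∩ XA A H).image Prod.fst with hJ
    have hJP : J ⊆ PA H := by
      intro t ht
      rw [hJ, Finset.mem_image] at ht
      obtain ⟨x, hx, rfl⟩ := ht
      rw [Finset.mem_inter, mem_XA] at hx
      rw [mem_PA]
      exact hx.2
    have hJc : J.card ≤ (lin H v L ∩ Gam H v z).card :=
      Finset.card_image_le.trans (Finset.card_le_card Finset.inter_subset_left)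
    have h3 := hH3 L z hn
    have h3' : (p.c : ℝ) ^ 6 * J.card ≤ p.q := by
      have h4 : p.c ^ 6 * J.card ≤ p.q := (Nat.mul_le_mul_left _ hJc).trans h3
      exact_mod_cast h4
    have hLB := h p P O V H v0 hT.card_V M J (fun _ => 1) 1 (p.rho / (2 * p.c)) hJP one_pos
      (fun t _ => ⟨zero_le_one, le_refl _⟩)
    have hMd : (M.card : ℝ) = p.d := by exact_mod_cast hT.card_M M hM
    have hN : (0 : ℝ) < p.N := by
      have : (1 : ℝ) ≤ p.N := by exact_mod_cast p.hN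
      linarith
    -- the mean is small
    have hmean : 2 * ((M.card : ℝ) / p.N * ∑ t ∈ J, (1 : ℝ)) ≤ p.rho / (2 * p.c) := by
      rw [Finset.sum_const, nsmul_eq_mul, mul_one, hMd]
      have h5 : (J.card : ℝ) ≤ p.q / p.c ^ 6 := by
        rw [le_div_iff₀ (by positivity)]
        linarith
      have hd : (0 : ℝ) ≤ p.d / p.N := by positivity
      have h6 : 2 * ((p.d : ℝ) / p.N * J.card) ≤ 2 * ((p.d : ℝ) / p.N * (p.q / p.c ^ 6)) := by
        have := mul_le_mul_of_nonneg_left h5 hd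
        linarith
      refine h6.trans ?_
      have h7 : 2 * ((p.d : ℝ) / p.N * (p.q / p.c ^ 6)) = p.rho * (2 / p.c ^ 6) := by
        unfold Par.rho
        field_simp
      have h8 : p.rho / (2 * p.c) = p.rho * (1 / (2 * p.c)) := by ring
      rw [h7, h8]
      apply mul_le_mul_of_nonneg_left _ hrho0.le
      rw [div_le_div_iff₀ (by positivity) (by positivity)]
      have h9 : (4 : ℝ) ≤ p.c ^ 5 := by
        calc (4 : ℝ) ≤ (10 ^ 6 : ℝ) ^ 5 := by norm_num
          _ ≤ (p.c : ℝ) ^ 5 := pow_le_pow_left₀ (by norm_num) hc 5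
      have h10 : (p.c : ℝ) ^ 6 = p.c * p.c ^ 5 := by ring
      rw [h10]
      nlinarith
    have hsub : ((Psi p H v0).filter (fun φ => p.rho / p.c <
        ((lin H v L ∩ Gam H v z ∩ XA A H ∩ labS A φ M).card : ℝ))) ⊆
        ((Psi p H v0).filter (fun φ => 2 * ((M.card : ℝ) / p.N * ∑ t ∈ J, (1 : ℝ)) +
          p.rho / (2 * p.c) ≤ ∑ t ∈ J, if φ t ∈ M then (1 : ℝ) else 0)) := by
      intro φ hφ
      rw [Finset.mem_filter] at hφ ⊢
      refine ⟨hφ.1, ?_⟩
      have h11 : (lin H v L ∩ Gam H v z ∩ XA A H ∩ labS A φ M).card ≤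
          (J.filter (fun t => φ t ∈ M)).card := by
        apply Finset.card_le_card_of_injOn (fun x => x.1)
        · intro x hx
          have hx' := Finset.mem_inter.1 (Finset.mem_coe.1 hx)
          rw [Finset.mem_coe, Finset.mem_filter]
          refine ⟨?_, mem_labS.1 hx'.2⟩
          rw [hJ]
          exact Finset.mem_image_of_mem _ hx'.1
        · intro x hx y hy hxy
          have hx1 : onL H v L x := mem_lin.1 (Finset.mem_inter.1 (Finset.mem_inter.1
            (Finset.mem_inter.1 (Finset.mem_coe.1 hx)).1).1).1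
          have hy1 : onL H v L y := mem_lin.1 (Finset.mem_inter.1 (Finset.mem_inter.1
            (Finset.mem_inter.1 (Finset.mem_coe.1 hy)).1).1).1
          exact onL_inj hx1 hy1 hxy
      have h12 : (∑ t ∈ J, if φ t ∈ M then (1 : ℝ) else 0) =
          ((J.filter (fun t => φ t ∈ M)).card : ℝ) := by
        rw [Finset.sum_ite, Finset.sum_const_zero, add_zero, Finset.sum_const, nsmul_eq_mul,
          mul_one]
      rw [h12]
      have h13 : ((lin H v L ∩ Gam H v z ∩ XA A H ∩ labS A φ M).card : ℝ) ≤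
          ((J.filter (fun t => φ t ∈ M)).card : ℝ) := by exact_mod_cast h11
      have h14 : p.rho / p.c = p.rho / (2 * p.c) + p.rho / (2 * p.c) := by
        field_simp
        ring
      have := hφ.2
      linarith
    have hexp : (2 : ℝ) ^ (3 * p.Lam + 8 * p.Lam) ≤ Real.exp (p.rho / (2 * p.c) / 1) := by
      apply PP4_exp_ge
      rw [div_one, le_div_iff₀ (by positivity)]
      have hl : (10 : ℝ) ^ 6 * p.Lam ≤ p.c := by exact_mod_cast p.hLog
      push_cast
      have h15 : (p.c : ℝ) * p.c ≤ p.c ^ 100 := by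
        calc (p.c : ℝ) * p.c = p.c ^ 2 := by ring
          _ ≤ p.c ^ 100 := pow_le_pow_right₀ (by linarith) (by norm_num)
      have hl2 : (3 * (p.Lam : ℝ) + 8 * p.Lam) * 2 ≤ p.c := by
        have : (0 : ℝ) ≤ p.Lam := Nat.cast_nonneg _
        linarith
      calc (3 * (p.Lam : ℝ) + 8 * p.Lam) * (2 * p.c) =
            ((3 * (p.Lam : ℝ) + 8 * p.Lam) * 2) * p.c := by ring
        _ ≤ p.c * p.c := mul_le_mul_of_nonneg_right hl2 hc0.le
        _ ≤ p.c ^ 100 := h15
        _ ≤ p.rho := hrho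
    have hfin : (((Psi p H v0).filter (fun φ => p.rho / p.c <
        ((lin H v L ∩ Gam H v z ∩ XA A H ∩ labS A φ M).card : ℝ))).card : ℝ) *
        2 ^ (3 * p.Lam + 8 * p.Lam) ≤ (Psi p H v0).card := by
      refine le_trans ?_ hLB
      apply mul_le_mul _ hexp (by positivity) (Nat.cast_nonneg _)
      exact_mod_cast Finset.card_le_card hsub
    exact_mod_cast hfin
  have hub := ub (Psi p H v0) I (fun e φ => p.rho / p.c <
      ((lin H v e.1 ∩ Gam H v e.2.1 ∩ XA A H ∩ labS A φ e.2.2).card : ℝ)) (3 * p.Lam)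
      (8 * p.Lam) hIc key
  refine le_trans (Nat.mul_le_mul_right _ (Finset.card_le_card ?_)) hub
  intro φ hφ
  rw [Finset.mem_filter] at hφ ⊢
  refine ⟨hφ.1, ?_⟩
  have hn := hφ.2
  unfold P4 at hn
  push Not at hn
  obtain ⟨L, z, M, hL, hM, hlt⟩ := hn
  refine ⟨(L, z, M), ?_, hlt⟩
  rw [hI, Finset.mem_filter]
  exact ⟨Finset.mem_product.2 ⟨Finset.mem_univ _, Finset.mem_product.2 ⟨Finset.mem_univ _, hM⟩⟩, hL⟩

end Pool.Agent.helper24.TG
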